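import Mathlib

set_option autoImplicit false

/-! # Definitions and statements for closures of groups twisted by integers (`MP_7de521_nt`) -/

namespace Pool.Agent.W54.CL

open Topology Filter Module

/-- The largest real subspace contained in an additive subgroup. -/
def maxSub {E : Type} [AddCommGroup E] [Module ℝ E] (H : AddSubgroup E) : Submodule ℝ E where
  carrier := {v | ∀ t : ℝ, t • v ∈ H}
  add_mem' := by
    intro a b ha hb t
    rw [smul_add]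
    exact H.add_mem (ha t) (hb t)
  zero_mem' := by
    intro t
    rw [smul_zero]
    exact H.zero_mem
  smul_mem' := by
    intro c v hv t
    rw [smul_smul]
    exact hv _

/-- A homomorphism from a real vector space to a topological group with a local section at `1`. -/
structure Chart {E G : Type} [NormedAddCommGroup E] [CommGroup G] [TopologicalSpace G]
    (ψ : E → G) : Prop where
  map_add : ∀ x y, ψ (x + y) = ψ x * ψ y
  cont : Continuous ψ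
  sec : ∃ s : G → E, Tendsto s (𝓝 1) (𝓝 0) ∧ ∀ᶠ g in 𝓝 (1 : G), ψ (s g) = g

section
variable {E G : Type} [NormedAddCommGroup E] [CommGroup G] [TopologicalSpace G] {ψ : E → G}

theorem Chart.map_zero (h : Chart ψ) : ψ 0 = 1 := by
  have := h.map_add 0 0
  rw [add_zero] at this
  exact (mul_eq_left.1 this.symm)

theorem Chart.map_neg (h : Chart ψ) (x : E) : ψ (-x) = (ψ x)⁻¹ := by
  rw [eq_inv_iff_mul_eq_one, ← h.map_add, neg_add_cancel, h.map_zero]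

/-- The preimage of the closure of `L`. -/
def pre [IsTopologicalGroup G] (h : Chart ψ) (L : Subgroup G) : AddSubgroup E where
  carrier := {x | ψ x ∈ L.topologicalClosure}
  add_mem' := by
    intro a b ha hb
    show ψ (a + b) ∈ L.topologicalClosure
    rw [h.map_add]
    exact mul_mem ha hb
  zero_mem' := by
    show ψ 0 ∈ L.topologicalClosure
    rw [h.map_zero]
    exact one_mem _
  neg_mem' := by
    intro a ha
    show ψ (-a) ∈ L.topologicalClosure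
    rw [h.map_neg]
    exact inv_mem ha

end

/-- Near `0` a closed subgroup is contained in its largest subspace. -/
def StOpen : Prop := ∀ (E : Type) [NormedAddCommGroup E] [NormedSpace ℝ E] [FiniteDimensional ℝ E]
  (H : AddSubgroup E), IsClosed (H : Set E) → ∃ δ : ℝ, 0 < δ ∧ ∀ h ∈ H, ‖h‖ < δ → h ∈ maxSub H

/-- The identity component of the closure. -/
def StComp : Prop := ∀ (E G : Type) [NormedAddCommGroup E] [NormedSpace ℝ E] [FiniteDimensional ℝ E]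
  [CommGroup G] [TopologicalSpace G] [IsTopologicalGroup G] (ψ : E → G) (h : Chart ψ)
  (L : Subgroup G),
  connectedComponentIn (closure (L : Set G)) 1 = ψ '' (maxSub (pre h L) : Set E) ∧
  (∀ v ∈ maxSub (pre h L), ∀ δ : ℝ, 0 < δ → ∃ u ∈ maxSub (pre h L), ψ u ∈ L ∧ ‖u - v‖ < δ) ∧
  (maxSub (pre h L) = ⊥ → ∃ U ∈ 𝓝 (1 : G), ∀ g ∈ closure (L : Set G), g ∈ U → g = 1)

/-- Cramer's rule with bounded degree. -/
def StDet : Prop := ∀ (ι I : Type) [Fintype ι] [Fintype I]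
  (W : Submodule (algebraicClosure ℚ ℂ) ℂ), (1 : ℂ) ∈ W → ∀ y : ι → I → ℝ, LinearIndependent ℝ y →
  (∀ i k, ((y i k : ℝ) : ℂ) ∈ W) →
  ∃ D : ℝ, D ≠ 0 ∧ ((D : ℝ) : ℂ) ∈ W ^ (2 * Fintype.card ι) ∧
    ∀ c : ι → ℝ, (∀ k, ((∑ i, c i * y i k : ℝ) : ℂ) ∈ W) →
      ∀ i, ((D * c i : ℝ) : ℂ) ∈ W ^ (2 * Fintype.card ι)

/-- `ε` has components `1` or `-1` at the real places, `1` at the complex places. -/
def IsSign {A B : Type} (ε : ((A → ℝ) × (B → ℂ))ˣ) : Prop :=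
  (∀ w, (ε : (A → ℝ) × (B → ℂ)).1 w = 1 ∨ (ε : (A → ℝ) × (B → ℂ)).1 w = -1) ∧
    ∀ w, (ε : (A → ℝ) × (B → ℂ)).2 w = 1

/-- The exponential chart of the unit group of `ℝ ^ A × ℂ ^ B`. -/
def StChart : Prop := ∀ (A B : Type) [Fintype A] [Fintype B] [DecidableEq B],
  ∃ ψ : (A → ℝ) × (B → ℂ) → ((A → ℝ) × (B → ℂ))ˣ, Chart ψ ∧
    (∀ x, ((ψ x : ((A → ℝ) × (B → ℂ))ˣ) : (A → ℝ) × (B → ℂ)) =
      (fun w => Real.exp (x.1 w), fun w => Complex.exp (x.2 w))) ∧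
    (∀ g : ((A → ℝ) × (B → ℂ))ˣ, ∃ x ε, g = ψ x * ε ∧ IsSign ε) ∧
    (∀ x, IsSign (ψ x) → ∃ q : B → ℤ,
      x = ((0 : A → ℝ), fun w => (q w : ℂ) * (2 * Real.pi * Complex.I)))

/-- The real numbers `t j` are linearly independent over `1` in a strong sense, over `W`. -/
def NoLin (W : Submodule (algebraicClosure ℚ ℂ) ℂ) {l : ℕ} (t : Fin l → ℝ) : Prop :=
  ∀ c : Fin l → ℂ, (∀ j, c j ∈ W) → ∑ j, c j * ((t j : ℝ) : ℂ) ∈ W → ∀ j, c j = 0

open Classical in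
/-- Almost all tuples of integers have logarithms without linear relations over `W`. -/
def StGen : Prop := ∀ (l N : ℕ) (ε : ℝ), 0 < ε → ∃ x₀ : ℕ, ∀ x ≥ x₀,
  ∀ W : Submodule (algebraicClosure ℚ ℂ) ℂ, Module.Finite (algebraicClosure ℚ ℂ) W →
    finrank (algebraicClosure ℚ ℂ) W ≤ N →
    (((Fintype.piFinset fun _ : Fin l => Finset.Icc 1 x).filter fun a =>
      ¬ NoLin W (fun j => Real.log (a j))).card : ℝ) ≤ ε * (x : ℝ) ^ l

/-- The algebraic core. -/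
def StCore : Prop := ∀ (E I J : Type) [NormedAddCommGroup E] [NormedSpace ℝ E]
  [FiniteDimensional ℝ E] [Fintype I] [Fintype J] (l : ℕ)
  (e : E) (X : E →ₗ[ℝ] ℝ) (η : I → E →ₗ[ℝ] ℝ) (κ : J → E →ₗ[ℝ] ℝ) (g : Fin l → E) (w : J → E)
  (t : Fin l → ℝ) (W : Submodule (algebraicClosure ℚ ℂ) ℂ),
  X e = 1 → (∀ k, η k e = 0) → (∀ x, X x = 0 → (∀ k, η k x = 0) → x = 0) →
  (∀ k, X (w k) = 0) → (∀ k, κ k e = 0) → (∀ q : J → ℤ, ∀ k, κ k (∑ j, (q j : ℝ) • w j) = q k) →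
  (1 : ℂ) ∈ W → (∀ j, ((X (g j) : ℝ) : ℂ) ∈ W) → (∀ j k, ((η k (g j) : ℝ) : ℂ) ∈ W) →
  (∀ j k, ((η k (w j) : ℝ) : ℂ) ∈ W) →
  NoLin (W ^ (2 * finrank ℝ E + 1)) t →
  ∀ (V : Submodule ℝ E) (S : Set E), (∀ u ∈ S, u ∈ V) →
    (∀ u ∈ S, ∃ p : Fin l → ℤ, ∃ q : J → ℤ,
      u = ∑ j, (p j : ℝ) • (g j + t j • e) + ∑ k, (q k : ℝ) • w k) →
    (∀ v ∈ V, ∀ δ : ℝ, 0 < δ → ∃ u ∈ S, ‖u - v‖ < δ) →
    e ∉ V → V = ⊥

/-- The dimension of a power of a space. -/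
def StPow : Prop := ∀ (W : Submodule (algebraicClosure ℚ ℂ) ℂ) (N k : ℕ),
  Module.Finite (algebraicClosure ℚ ℂ) W → finrank (algebraicClosure ℚ ℂ) W ≤ N →
  Module.Finite (algebraicClosure ℚ ℂ) (W ^ k : Submodule (algebraicClosure ℚ ℂ) ℂ) ∧
    finrank (algebraicClosure ℚ ℂ) (W ^ k : Submodule (algebraicClosure ℚ ℂ) ℂ) ≤ N ^ k

end Pool.Agent.W54.CL
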