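import Pool.Agent.W54.CL.NonDisc
import Pool.Agent.W539.CL.Comp
import Pool.Agent.W929.CL.OPEN
import Pool.Agent.W253.CL.CHART
import Pool.Agent.W227.CL.Det

set_option autoImplicit false
set_option linter.unusedSectionVars false

namespace Pool.Agent.W54.CL

open Topology Filter Module NumberField

theorem hOpen : StOpen := Pool.Agent.W929.CLOPEN.main
theorem hComp : StComp := Pool.Agent.W539.CL.Comp.main hOpen
theorem hChart : StChart := Pool.Agent.W253.CL.CHART.main
theorem hCore : StCore := core Pool.Agent.W227.CL.Det.main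

/-- The closure in `(K ⊗ ℝ)^×` of a subgroup of `K^×`. -/
def cl (K : Type) [Field K] [NumberField K] (L : Subgroup Kˣ) :
    Set (mixedEmbedding.mixedSpace K)ˣ :=
  closure (L.map (Units.map (mixedEmbedding K : K →* mixedEmbedding.mixedSpace K)) :
    Set (mixedEmbedding.mixedSpace K)ˣ)

/-- The positive real numbers in `(K ⊗ ℝ)^×`. -/
def posReals (K : Type) [Field K] [NumberField K] : Set (mixedEmbedding.mixedSpace K)ˣ :=
  {u | ∃ s : ℝ, 0 < s ∧ (u : mixedEmbedding.mixedSpace K) = s • 1}

/-- The identity is isolated (for a closed subgroup: the subgroup is discrete). -/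
def Isolated {G : Type} [Group G] [TopologicalSpace G] (H : Set G) : Prop :=
  ∃ U ∈ 𝓝 (1 : G), ∀ u ∈ H, u ∈ U → u = 1

/-- The group generated by the `a j * α j`. -/
def twist {K : Type} [Field K] {l : ℕ} (α : Fin l → Kˣ) (a : Fin l → ℕ) : Subgroup Kˣ :=
  Subgroup.closure {y : Kˣ | ∃ j, (y : K) = a j * α j}

/-- The set of all `s z`, `s` a positive real number, `z` in the group generated by the `α j`. -/
def posTimes (K : Type) [Field K] [NumberField K] {l : ℕ} (α : Fin l → Kˣ) :
    Set (mixedEmbedding.mixedSpace K)ˣ :=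
  {u | ∃ s : ℝ, 0 < s ∧ ∃ z ∈ Subgroup.closure (Set.range α),
    (u : mixedEmbedding.mixedSpace K) = s • mixedEmbedding K (z : Kˣ)}

open Classical in
theorem final2 (hG : StGen) (hP : StPow)
    (n l : ℕ) (ε : ℝ) (hε : 0 < ε) : ∃ x₀ : ℕ, ∀ x ≥ x₀, ∀ (K : Type) [Field K] [NumberField K],
      finrank ℚ K = n → ∀ α : Fin l → Kˣ,
      (((Fintype.piFinset fun _ : Fin l => Finset.Icc 1 x).filter fun a =>
        ¬ ((∀ L ≤ twist α a, Isolated (cl K L) ∨ posReals K ⊆ cl K L) ∧
          (cl K (twist α a) = closure (posTimes K α) ∨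
            Isolated (cl K (twist α a)) ∧ l ≤ Fintype.card (InfinitePlace K)) ∧
          (n = 2 → ∀ L ≤ twist α a, connectedComponentIn (cl K L) 1 = {1} ∨
            connectedComponentIn (cl K L) 1 = posReals K ∨
            connectedComponentIn (cl K L) 1 = connectedComponent 1))).card : ℝ) ≤
        ε * (x : ℝ) ^ l := by
  obtain ⟨x₀, hx₀⟩ := hG l ((l + (l * n + n * n) + 1) ^ (2 * n + 1)) ε hε
  refine ⟨x₀, fun x hx K _ _ hn α => ?_⟩
  let A := {w : InfinitePlace K // w.IsReal}
  let B := {w : InfinitePlace K // w.IsComplex}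
  have hAB : Fintype.card A + 2 * Fintype.card B = n := by
    rw [← hn, ← InfinitePlace.card_add_two_mul_card_eq_rank K]
  have hAB2 : Fintype.card A + Fintype.card B = Fintype.card (InfinitePlace K) := by
    rw [InfinitePlace.card_eq_nrRealPlaces_add_nrComplexPlaces]
  have : Nonempty (A ⊕ B) := by
    obtain ⟨w⟩ : Nonempty (InfinitePlace K) := inferInstance
    rcases w.isReal_or_isComplex with h | h
    · exact ⟨Sum.inl ⟨w, h⟩⟩
    · exact ⟨Sum.inr ⟨w, h⟩⟩
  have hfr : finrank ℝ ((A → ℝ) × (B → ℂ)) = n := by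
    rw [← hn]
    exact mixedEmbedding.finrank K
  obtain ⟨ψ, hch, hv, hlift, hker⟩ := hChart A B
  have h1 : ∀ j, ∃ (g : (A → ℝ) × (B → ℂ)) (ε : ((A → ℝ) × (B → ℂ))ˣ), IsSign ε ∧
      Units.map (mixedEmbedding K : K →* (A → ℝ) × (B → ℂ)) (α j) = ψ g * ε := by
    intro j
    obtain ⟨g, ε, h, h'⟩ := hlift (Units.map (mixedEmbedding K : K →* (A → ℝ) × (B → ℂ)) (α j))
    exact ⟨g, ε, h', h⟩
  choose g ε' hε' hg using h1
  obtain ⟨hf, hr⟩ := hP (W1 g) (l + (l * n + n * n) + 1) (2 * n + 1) (W1_finite g) (by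
    refine (W1_finrank g).trans ?_
    have h2 : Fintype.card A + (Fintype.card B + Fintype.card B) = n := by omega
    have h3 : Fintype.card B ≤ n := by omega
    rw [h2]
    gcongr)
  refine le_trans ?_ (hx₀ x hx (W1 g ^ (2 * n + 1)) hf hr)
  have h2 : ((Fintype.piFinset fun _ : Fin l => Finset.Icc 1 x).filter fun a =>
        ¬ ((∀ L ≤ twist α a, Isolated (cl K L) ∨ posReals K ⊆ cl K L) ∧
          (cl K (twist α a) = closure (posTimes K α) ∨
            Isolated (cl K (twist α a)) ∧ l ≤ Fintype.card (InfinitePlace K)) ∧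
          (n = 2 → ∀ L ≤ twist α a, connectedComponentIn (cl K L) 1 = {1} ∨
            connectedComponentIn (cl K L) 1 = posReals K ∨
            connectedComponentIn (cl K L) 1 = connectedComponent 1))).card ≤
      ((Fintype.piFinset fun _ : Fin l => Finset.Icc 1 x).filter fun a =>
        ¬ NoLin (W1 g ^ (2 * n + 1)) (fun j => Real.log (a j))).card := by
    apply Finset.card_le_card
    intro a ha
    rw [Finset.mem_filter] at ha ⊢
    refine ⟨ha.1, fun hN => ha.2 ?_⟩
    have hpos : ∀ j, 1 ≤ a j := fun j => (Finset.mem_Icc.1 (Fintype.mem_piFinset.1 ha.1 j)).1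
    have hN' : NoLin ((W1 g) ^ (2 * finrank ℝ ((A → ℝ) × (B → ℂ)) + 1))
        (fun j => Real.log (a j)) := by
      rw [hfr]
      exact hN
    have h3 : ∀ L ≤ twist α a,
        maxSub (pre hch (L.map (Units.map (mixedEmbedding K : K →* (A → ℝ) × (B → ℂ))))) = ⊥ ∨
        ev A B ∈ maxSub (pre hch (L.map
          (Units.map (mixedEmbedding K : K →* (A → ℝ) × (B → ℂ))))) := fun L hL =>
      alt hCore hComp hch (mixedEmbedding K) hv hker a hpos α g ε' hε' hg hN' L hL
    have h4 := fun L (hL : L ≤ twist α a) => good hComp hch hv _ (h3 L hL)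
    refine ⟨fun L hL => ?_, ?_, fun h5 L hL => ?_⟩
    · rcases (h4 L hL).1 with h5 | h5
      · exact Or.inl h5
      · refine Or.inr ?_
        rintro u ⟨s, hs, hu⟩
        exact h5 s u hs hu
    · rcases h3 _ le_rfl with h5 | h5
      · right
        refine ⟨(hComp _ _ ψ hch _).2.2 h5, ?_⟩
        have h6 := nondisc hOpen hch (mixedEmbedding K) hv a hpos α g ε' hε' hg hN' h5
        rw [hfr] at h6
        omega
      · left
        apply sat_eq hch (mixedEmbedding K) hv a hpos α
        intro s u hs hu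
        rw [psi_range hv hs hu]
        exact h5 (Real.log s)
    · exact (h4 L hL).2 (by rw [hfr, h5])
  exact_mod_cast h2

end Pool.Agent.W54.CL
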