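import Pool.Agent.W54.CL.Core

set_option autoImplicit false
set_option linter.unusedSectionVars false

namespace Pool.Agent.W54.CL

open Topology Filter Module

section
variable {A B : Type} [Fintype A] [Fintype B] [DecidableEq B]

/-- the vector of ones -/
def ev (A B : Type) : (A → ℝ) × (B → ℂ) := (fun _ => 1, fun _ => 1)

/-- the average of the real parts -/
noncomputable def Xl (A B : Type) [Fintype A] [Fintype B] : ((A → ℝ) × (B → ℂ)) →ₗ[ℝ] ℝ where
  toFun x := ((Fintype.card A + Fintype.card B : ℕ) : ℝ)⁻¹ * (∑ w, x.1 w + ∑ w, (x.2 w).re)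
  map_add' := by
    intro x y
    simp only [Prod.fst_add, Prod.snd_add, Pi.add_apply, Complex.add_re, Finset.sum_add_distrib]
    ring
  map_smul' := by
    intro c x
    simp only [Prod.smul_fst, Prod.smul_snd, Pi.smul_apply, smul_eq_mul, Complex.real_smul,
      Complex.re_ofReal_mul, RingHom.id_apply, ← Finset.mul_sum]
    ring

/-- the other coordinates -/
noncomputable def etal (A B : Type) [Fintype A] [Fintype B] :
    A ⊕ B ⊕ B → ((A → ℝ) × (B → ℂ)) →ₗ[ℝ] ℝ
  | Sum.inl w =>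
    { toFun := fun x => x.1 w - Xl A B x
      map_add' := by intro x y; rw [map_add]; simp only [Prod.fst_add, Pi.add_apply]; ring
      map_smul' := by
        intro c x; rw [map_smul]
        simp only [Prod.smul_fst, Pi.smul_apply, smul_eq_mul, RingHom.id_apply]; ring }
  | Sum.inr (Sum.inl w) =>
    { toFun := fun x => (x.2 w).re - Xl A B x
      map_add' := by
        intro x y; rw [map_add]; simp only [Prod.snd_add, Pi.add_apply, Complex.add_re]; ring
      map_smul' := by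
        intro c x; rw [map_smul]
        simp only [Prod.smul_snd, Pi.smul_apply, smul_eq_mul, Complex.real_smul,
          Complex.re_ofReal_mul, RingHom.id_apply]
        ring }
  | Sum.inr (Sum.inr w) =>
    { toFun := fun x => (x.2 w).im
      map_add' := by intro x y; simp only [Prod.snd_add, Pi.add_apply, Complex.add_im]
      map_smul' := by
        intro c x
        simp only [Prod.smul_snd, Pi.smul_apply, smul_eq_mul, Complex.real_smul,
          Complex.im_ofReal_mul, RingHom.id_apply] }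

/-- the imaginary parts, divided by `2 π` -/
noncomputable def kapl (A B : Type) (k : B) : ((A → ℝ) × (B → ℂ)) →ₗ[ℝ] ℝ where
  toFun x := (x.2 k).im / (2 * Real.pi)
  map_add' := by
    intro x y
    simp only [Prod.snd_add, Pi.add_apply, Complex.add_im]
    ring
  map_smul' := by
    intro c x
    simp only [Prod.smul_snd, Pi.smul_apply, smul_eq_mul, Complex.real_smul,
      Complex.im_ofReal_mul, RingHom.id_apply]
    ring

/-- the periods -/
noncomputable def wv (A : Type) {B : Type} [DecidableEq B] (k : B) : (A → ℝ) × (B → ℂ) :=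
  (0, Pi.single k (2 * Real.pi * Complex.I))

theorem Xl_ev [Nonempty (A ⊕ B)] : Xl A B (ev A B) = 1 := by
  have h : (Fintype.card A + Fintype.card B : ℕ) ≠ 0 := by
    rw [← Fintype.card_sum]
    exact Fintype.card_ne_zero
  have h2 : (((Fintype.card A + Fintype.card B : ℕ) : ℝ)) ≠ 0 := by exact_mod_cast h
  show ((Fintype.card A + Fintype.card B : ℕ) : ℝ)⁻¹ *
    (∑ _w : A, (1 : ℝ) + ∑ _w : B, (1 : ℂ).re) = 1
  simp only [Complex.one_re, Finset.sum_const, Finset.card_univ, nsmul_eq_mul, mul_one]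
  rw [← Nat.cast_add, inv_mul_cancel₀ h2]

theorem etal_ev [Nonempty (A ⊕ B)] (k : A ⊕ B ⊕ B) : etal A B k (ev A B) = 0 := by
  rcases k with w | w | w
  · show (1 : ℝ) - Xl A B (ev A B) = 0
    rw [Xl_ev, sub_self]
  · show (1 : ℂ).re - Xl A B (ev A B) = 0
    rw [Xl_ev, Complex.one_re, sub_self]
  · show (1 : ℂ).im = 0
    exact Complex.one_im

theorem etal_sep (x : (A → ℝ) × (B → ℂ)) (hX : Xl A B x = 0) (h : ∀ k, etal A B k x = 0) :
    x = 0 := by
  refine Prod.ext (funext fun w => ?_) (funext fun w => ?_)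
  · have h1 : x.1 w - Xl A B x = 0 := h (Sum.inl w)
    rw [hX, sub_zero] at h1
    exact h1
  · have h1 : (x.2 w).re - Xl A B x = 0 := h (Sum.inr (Sum.inl w))
    have h2 : (x.2 w).im = 0 := h (Sum.inr (Sum.inr w))
    rw [hX, sub_zero] at h1
    exact Complex.ext h1 h2

theorem Xl_wv (k : B) : Xl A B (wv A k) = 0 := by
  show ((Fintype.card A + Fintype.card B : ℕ) : ℝ)⁻¹ *
    (∑ _w : A, (0 : ℝ) + ∑ w : B, ((Pi.single k (2 * Real.pi * Complex.I) : B → ℂ) w).re) = 0
  have h : ∀ w, ((Pi.single k (2 * Real.pi * Complex.I) : B → ℂ) w).re = 0 := by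
    intro w
    by_cases hw : w = k
    · subst hw
      simp
    · simp [Pi.single_eq_of_ne hw]
  simp [h]

theorem kapl_ev (k : B) : kapl A B k (ev A B) = 0 := by
  show (1 : ℂ).im / (2 * Real.pi) = 0
  simp

theorem sum_wv (q : B → ℤ) :
    ∑ k, (q k : ℝ) • wv A k = ((0 : A → ℝ), fun w => (q w : ℂ) * (2 * Real.pi * Complex.I)) := by
  refine Prod.ext ?_ (funext fun w => ?_)
  · rw [Prod.fst_sum]
    simp [wv]
  · rw [Prod.snd_sum, Finset.sum_apply, Finset.sum_eq_single w]
    · simp [wv]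
    · intro k _ hk
      simp [wv, Pi.single_eq_of_ne hk.symm]
    · intro h
      exact absurd (Finset.mem_univ w) h

theorem kapl_wv (q : B → ℤ) (k : B) : kapl A B k (∑ j, (q j : ℝ) • wv A j) = q k := by
  rw [sum_wv]
  show ((q k : ℂ) * (2 * Real.pi * Complex.I)).im / (2 * Real.pi) = q k
  have hpi : (2 * Real.pi) ≠ 0 := by positivity
  have : ((q k : ℂ) * (2 * Real.pi * Complex.I)).im = q k * (2 * Real.pi) := by
    have h : (q k : ℂ) * (2 * Real.pi * Complex.I) = ((q k * (2 * Real.pi) : ℝ) : ℂ) * Complex.I := by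
      push_cast; ring
    rw [h]
    simp
  rw [this]
  field_simp

theorem IsSign.mul {a b : ((A → ℝ) × (B → ℂ))ˣ} (ha : IsSign a) (hb : IsSign b) :
    IsSign (a * b) := by
  refine ⟨fun w => ?_, fun w => ?_⟩
  · rw [Units.val_mul, Prod.fst_mul, Pi.mul_apply]
    rcases ha.1 w with h | h <;> rcases hb.1 w with h' | h' <;> rw [h, h'] <;> norm_num
  · rw [Units.val_mul, Prod.snd_mul, Pi.mul_apply, ha.2 w, hb.2 w, mul_one]

theorem IsSign.one : IsSign (1 : ((A → ℝ) × (B → ℂ))ˣ) :=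
  ⟨fun _ => Or.inl rfl, fun _ => rfl⟩

theorem IsSign.inv {a : ((A → ℝ) × (B → ℂ))ˣ} (ha : IsSign a) : IsSign a⁻¹ := by
  have h : a * a = 1 := by
    apply Units.ext
    rw [Units.val_mul, Units.val_one]
    refine Prod.ext (funext fun w => ?_) (funext fun w => ?_)
    · rw [Prod.fst_mul, Pi.mul_apply]
      rcases ha.1 w with h | h <;> rw [h] <;> simp
    · rw [Prod.snd_mul, Pi.mul_apply, ha.2 w, mul_one]
      rfl
  rw [inv_eq_of_mul_eq_one_left h]
  exact ha

/-- the space of coefficients -/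
noncomputable def W1 {l : ℕ} (g : Fin l → (A → ℝ) × (B → ℂ)) :
    Submodule (algebraicClosure ℚ ℂ) ℂ :=
  Submodule.span _ (Set.range (fun i : Option (Fin l ⊕ (Fin l × (A ⊕ B ⊕ B)) ⊕ (B × (A ⊕ B ⊕ B))) =>
    match i with
    | none => (1 : ℂ)
    | some (Sum.inl j) => ((Xl A B (g j) : ℝ) : ℂ)
    | some (Sum.inr (Sum.inl (j, k))) => ((etal A B k (g j) : ℝ) : ℂ)
    | some (Sum.inr (Sum.inr (j, k))) => ((etal A B k (wv A j) : ℝ) : ℂ)))

theorem W1_finite {l : ℕ} (g : Fin l → (A → ℝ) × (B → ℂ)) :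
    Module.Finite (algebraicClosure ℚ ℂ) (W1 g) :=
  FiniteDimensional.span_of_finite _ (Set.finite_range _)

theorem W1_finrank {l : ℕ} (g : Fin l → (A → ℝ) × (B → ℂ)) :
    finrank (algebraicClosure ℚ ℂ) (W1 g) ≤
      l + (l * (Fintype.card A + (Fintype.card B + Fintype.card B)) +
        Fintype.card B * (Fintype.card A + (Fintype.card B + Fintype.card B))) + 1 := by
  refine (finrank_range_le_card _).trans (le_of_eq ?_)
  simp only [Fintype.card_option, Fintype.card_sum, Fintype.card_prod, Fintype.card_fin]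

theorem W1_one {l : ℕ} (g : Fin l → (A → ℝ) × (B → ℂ)) : (1 : ℂ) ∈ W1 g :=
  Submodule.subset_span ⟨none, rfl⟩

/-- The core in the concrete situation. -/
theorem conc (hC : StCore) [Nonempty (A ⊕ B)] {l : ℕ} (g : Fin l → (A → ℝ) × (B → ℂ))
    (t : Fin l → ℝ)
    (hN : NoLin ((W1 g) ^ (2 * finrank ℝ ((A → ℝ) × (B → ℂ)) + 1)) t)
    (V : Submodule ℝ ((A → ℝ) × (B → ℂ))) (S : Set ((A → ℝ) × (B → ℂ))) (hSV : ∀ u ∈ S, u ∈ V)
    (hrep : ∀ u ∈ S, ∃ p : Fin l → ℤ, ∃ q : B → ℤ,
      u = ∑ j, (p j : ℝ) • (g j + t j • ev A B) + ∑ k, (q k : ℝ) • wv A k)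
    (hd : ∀ v ∈ V, ∀ δ : ℝ, 0 < δ → ∃ u ∈ S, ‖u - v‖ < δ) (he : ev A B ∉ V) : V = ⊥ :=
  hC ((A → ℝ) × (B → ℂ)) (A ⊕ B ⊕ B) B l (ev A B) (Xl A B) (etal A B) (kapl A B) g (wv A) t
    (W1 g) Xl_ev etal_ev etal_sep Xl_wv kapl_ev kapl_wv (W1_one g)
    (fun j => Submodule.subset_span ⟨some (Sum.inl j), rfl⟩)
    (fun j k => Submodule.subset_span ⟨some (Sum.inr (Sum.inl (j, k))), rfl⟩)
    (fun j k => Submodule.subset_span ⟨some (Sum.inr (Sum.inr (j, k))), rfl⟩)
    hN V S hSV hrep hd he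

end

end Pool.Agent.W54.CL
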