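import Pool.Agent.W54.CL.Stm

set_option autoImplicit false
set_option linter.unusedSectionVars false

namespace Pool.Agent.W54.CL

open Topology Filter Module

section
variable {E : Type} [NormedAddCommGroup E] [NormedSpace ℝ E] [FiniteDimensional ℝ E]

theorem mem_closure_of_dense {V : Submodule ℝ E} {S : Set E}
    (hd : ∀ v ∈ V, ∀ δ : ℝ, 0 < δ → ∃ u ∈ S, ‖u - v‖ < δ) {v : E} (hv : v ∈ V) : v ∈ closure S := by
  rw [Metric.mem_closure_iff]
  intro δ hδ
  obtain ⟨u, hu, h⟩ := hd v hv δ hδ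
  refine ⟨u, hu, ?_⟩
  rw [dist_comm, dist_eq_norm]
  exact h

/-- A linear form with integral values on a dense subset of a space vanishes. -/
theorem int_form {V : Submodule ℝ E} {S : Set E}
    (hd : ∀ v ∈ V, ∀ δ : ℝ, 0 < δ → ∃ u ∈ S, ‖u - v‖ < δ) (φ : E →ₗ[ℝ] ℝ)
    (hφ : ∀ u ∈ S, ∃ m : ℤ, φ u = m) {v : E} (hv : v ∈ V) : φ v = 0 := by
  have hcl : ∀ v ∈ V, φ v ∈ Set.range ((↑) : ℤ → ℝ) := by
    intro v hv
    have h1 : φ v ∈ closure (φ '' S) :=
      image_closure_subset_closure_image (LinearMap.continuous_of_finiteDimensional φ)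
        ⟨v, mem_closure_of_dense hd hv, rfl⟩
    have h2 : IsClosed (Set.range ((↑) : ℤ → ℝ)) := Int.isClosedEmbedding_coe_real.isClosed_range
    refine closure_minimal ?_ h2 h1
    rintro _ ⟨u, hu, rfl⟩
    obtain ⟨m, hm⟩ := hφ u hu
    exact ⟨m, hm.symm⟩
  by_contra h
  obtain ⟨m, hm⟩ := hcl ((1 / (2 * φ v)) • v) (V.smul_mem _ hv)
  rw [map_smul, smul_eq_mul] at hm
  have h3 : 1 / (2 * φ v) * φ v = 1 / 2 := by field_simp
  rw [h3] at hm
  have h4 : (2 * m : ℤ) = 1 := by
    have : (2 : ℝ) * m = 1 := by rw [hm]; norm_num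
    exact_mod_cast this
  omega

theorem le_pow_of_one {W : Submodule (algebraicClosure ℚ ℂ) ℂ} (h1 : (1 : ℂ) ∈ W) {a b : ℕ}
    (hab : a ≤ b) : W ^ a ≤ W ^ b := by
  induction hab with
  | refl => exact le_rfl
  | step _ ih =>
    refine ih.trans ?_
    intro x hx
    rw [pow_succ]
    rw [← mul_one x]
    exact Submodule.mul_mem_mul hx h1

theorem core (hD : StDet) : StCore := by
  intro E I J _ _ _ _ _ l e X η κ g w t W hXe hηe hsep hXw _ hκ h1W hXg hηg hηw hN V S hSV hrep hd heV
  classical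
  -- the coordinates of elements of `S`
  have hη : ∀ u ∈ S, ∀ k, ((η k u : ℝ) : ℂ) ∈ W := by
    intro u hu k
    obtain ⟨p, q, rfl⟩ := hrep u hu
    simp only [map_add, map_sum, map_smul, smul_eq_mul, hηe, mul_zero, add_zero]
    push_cast
    refine add_mem (sum_mem fun j _ => ?_) (sum_mem fun j _ => ?_)
    · have := zsmul_mem (hηg j k) (p j)
      simpa [zsmul_eq_mul] using this
    · have := zsmul_mem (hηw j k) (q j)
      simpa [zsmul_eq_mul] using this
  have hXu : ∀ (p : Fin l → ℤ) (q : J → ℤ),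
      X (∑ j, (p j : ℝ) • (g j + t j • e) + ∑ k, (q k : ℝ) • w k) =
        ∑ j, (p j : ℝ) * (X (g j) + t j) := by
    intro p q
    simp only [map_add, map_sum, map_smul, smul_eq_mul, hXe, hXw, mul_zero, mul_one,
      Finset.sum_const_zero, add_zero]
  have hker : ∀ v ∈ V, (∀ k, η k v = 0) → v = 0 := by
    intro v hv h0
    have h2 : v - X v • e = 0 := by
      apply hsep
      · rw [map_sub, map_smul, smul_eq_mul, hXe, mul_one, sub_self]
      · intro k
        rw [map_sub, map_smul, h0, hηe, smul_zero, sub_zero]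
    have h3 : v = X v • e := sub_eq_zero.1 h2
    by_cases h4 : X v = 0
    · rw [h3, h4, zero_smul]
    · exfalso
      apply heV
      have : e = (X v)⁻¹ • v := by
        conv_rhs => rw [h3]
        rw [map_smul, smul_eq_mul, hXe, mul_one, smul_smul, inv_mul_cancel₀ h4, one_smul]
      rw [this]
      exact V.smul_mem _ hv
  -- `S` spans `V`
  have hspan : ∀ v ∈ V, v ∈ Submodule.span ℝ S := by
    intro v hv
    have hc : IsClosed ((Submodule.span ℝ S : Submodule ℝ E) : Set E) :=
      Submodule.closed_of_finiteDimensional _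
    exact closure_minimal Submodule.subset_span hc (mem_closure_of_dense hd hv)
  obtain ⟨b, hbS, hbspan, hbli⟩ := exists_linearIndependent ℝ S
  have : Fintype b := hbli.setFinite.fintype
  have hcard : Fintype.card b ≤ finrank ℝ E := hbli.fintype_card_le_finrank
  have hbrep : ∀ i : b, ∃ p : Fin l → ℤ, ∃ q : J → ℤ,
      (i : E) = ∑ j, (p j : ℝ) • (g j + t j • e) + ∑ k, (q k : ℝ) • w k := fun i => hrep i (hbS i.2)
  choose pb qb hpq using hbrep
  have hcomb : ∀ v ∈ V, ∃ c : b → ℝ, ∑ i, c i • (i : E) = v := by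
    intro v hv
    have h2 := hspan v hv
    rw [← hbspan] at h2
    have h3 : b = Set.range (Subtype.val : b → E) := Subtype.range_coe.symm
    rw [h3] at h2
    exact (Submodule.mem_span_range_iff_exists_fun ℝ).1 h2
  have hyli : LinearIndependent ℝ (fun (i : b) (k : I) => η k (i : E)) := by
    rw [Fintype.linearIndependent_iff]
    intro c hc
    have h2 : ∑ i, c i • (i : E) = 0 := by
      apply hker _ (Submodule.sum_mem _ fun i _ => V.smul_mem _ (hSV _ (hbS i.2)))
      intro k
      have h3 := congrFun hc k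
      simp only [Finset.sum_apply, Pi.smul_apply, smul_eq_mul, Pi.zero_apply] at h3
      rw [map_sum]
      simp only [map_smul, smul_eq_mul]
      exact h3
    exact (Fintype.linearIndependent_iff.1 hbli) c h2
  obtain ⟨D, hD0, hDW, hDc⟩ := hD b I W h1W (fun i k => η k (i : E)) hyli
    (fun i k => hη _ (hbS i.2) k)
  have hle : W ^ (2 * Fintype.card b) ≤ W ^ (2 * finrank ℝ E + 1) := le_pow_of_one h1W (by omega)
  have hle2 : W ^ (2 * Fintype.card b + 1) ≤ W ^ (2 * finrank ℝ E + 1) :=
    le_pow_of_one h1W (by omega)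
  -- the key relation
  have hkey : ∀ u ∈ S, ∀ (p : Fin l → ℤ) (q : J → ℤ),
      u = ∑ j, (p j : ℝ) • (g j + t j • e) + ∑ k, (q k : ℝ) • w k →
      ∀ c : b → ℝ, ∑ i, c i • (i : E) = u → ∀ j, (p j : ℝ) = ∑ i, c i * (pb i j : ℝ) := by
    intro u hu p q hupq c hc
    have hc1 : ∀ i, ((D * c i : ℝ) : ℂ) ∈ W ^ (2 * Fintype.card b) := by
      apply hDc c
      intro k
      have h2 : ∑ i, c i * η k (i : E) = η k u := by
        rw [← hc, map_sum]
        simp only [map_smul, smul_eq_mul]
      rw [h2]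
      exact hη u hu k
    have hX1 : X u = ∑ j, (p j : ℝ) * (X (g j) + t j) := by
      conv_lhs => rw [hupq]
      exact hXu p q
    have hX2 : X u = ∑ i, c i * ∑ j, (pb i j : ℝ) * (X (g j) + t j) := by
      rw [← hc, map_sum]
      refine Finset.sum_congr rfl fun i _ => ?_
      rw [map_smul, smul_eq_mul]
      congr 1
      conv_lhs => rw [hpq i]
      exact hXu _ _
    have hX3 : ∑ j, (D * ((p j : ℝ) - ∑ i, c i * (pb i j : ℝ))) * (X (g j) + t j) = 0 := by
      have h2 : ∑ j, ((p j : ℝ) - ∑ i, c i * (pb i j : ℝ)) * (X (g j) + t j) = 0 := by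
        simp only [sub_mul, Finset.sum_sub_distrib]
        rw [← hX1, hX2, sub_eq_zero]
        simp only [Finset.sum_mul, Finset.mul_sum]
        rw [Finset.sum_comm]
        refine Finset.sum_congr rfl fun j _ => Finset.sum_congr rfl fun i _ => by ring
      simp only [mul_assoc]
      rw [← Finset.mul_sum, h2, mul_zero]
    set kap : Fin l → ℝ := fun j => D * ((p j : ℝ) - ∑ i, c i * (pb i j : ℝ)) with hkap
    have hkW : ∀ j, ((kap j : ℝ) : ℂ) ∈ W ^ (2 * Fintype.card b) := by
      intro j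
      have h2 : kap j = (p j : ℤ) • D - ∑ i, (pb i j : ℤ) • (D * c i) := by
        simp only [hkap, zsmul_eq_mul, mul_sub, Finset.mul_sum]
        congr 1
        · ring
        · exact Finset.sum_congr rfl fun i _ => by ring
      rw [h2]
      push_cast
      refine sub_mem (by simpa [zsmul_eq_mul] using zsmul_mem hDW (p j)) (sum_mem fun i _ => ?_)
      have := zsmul_mem (hc1 i) (pb i j)
      simpa [zsmul_eq_mul] using this
    have hk0 := hN (fun j => ((kap j : ℝ) : ℂ)) (fun j => hle (hkW j)) (by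
      have h2 : ∑ j, ((kap j : ℝ) : ℂ) * ((t j : ℝ) : ℂ) =
          -∑ j, ((kap j : ℝ) : ℂ) * ((X (g j) : ℝ) : ℂ) := by
        rw [eq_neg_iff_add_eq_zero, ← Finset.sum_add_distrib]
        have h3 := congrArg (fun r : ℝ => (r : ℂ)) hX3
        push_cast at h3
        rw [← h3]
        refine Finset.sum_congr rfl fun j _ => ?_
        simp only [hkap]
        push_cast
        ring
      rw [h2]
      apply hle2
      rw [pow_succ]
      refine neg_mem (sum_mem fun j _ => Submodule.mul_mem_mul (hkW j) (hXg j)))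
    intro j
    have h3 : kap j = 0 := by exact_mod_cast hk0 j
    have h4 := (mul_eq_zero.1 h3).resolve_left hD0
    linarith
  -- the linear forms with the values `pb i j`
  have hT : ∀ j, ∃ T : E →ₗ[ℝ] ℝ, ∀ i : b, T i = pb i j := by
    intro j
    obtain ⟨T, hT⟩ := LinearMap.exists_extend
      ((Finsupp.linearCombination ℝ (fun i : b => (pb i j : ℝ))).comp
        (hbli.repr : Submodule.span ℝ (Set.range (Subtype.val : b → E)) →ₗ[ℝ] b →₀ ℝ))
    refine ⟨T, fun i => ?_⟩
    have hmem : (i : E) ∈ Submodule.span ℝ (Set.range (Subtype.val : b → E)) :=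
      Submodule.subset_span ⟨i, rfl⟩
    have h2 := LinearMap.congr_fun hT ⟨(i : E), hmem⟩
    simp only [LinearMap.comp_apply, Submodule.subtype_apply] at h2
    rw [h2]
    have h3 : hbli.repr ⟨(i : E), hmem⟩ = Finsupp.single i 1 := hbli.repr_eq_single i _ rfl
    rw [h3, Finsupp.linearCombination_single, one_smul]
  choose T hT using hT
  have hTu : ∀ u ∈ S, ∀ (p : Fin l → ℤ) (q : J → ℤ),
      u = ∑ j, (p j : ℝ) • (g j + t j • e) + ∑ k, (q k : ℝ) • w k → ∀ j, T j u = p j := by
    intro u hu p q hupq j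
    obtain ⟨c, hc⟩ := hcomb u (hSV u hu)
    rw [hkey u hu p q hupq c hc j, ← hc, map_sum]
    refine Finset.sum_congr rfl fun i _ => ?_
    rw [map_smul, smul_eq_mul, hT]
  have hTV : ∀ j, ∀ v ∈ V, T j v = 0 := by
    intro j v hv
    apply int_form hd (T j) _ hv
    intro u hu
    obtain ⟨p, q, hupq⟩ := hrep u hu
    exact ⟨p j, hTu u hu p q hupq j⟩
  have hq : ∀ u ∈ S, ∃ q : J → ℤ, u = ∑ k, (q k : ℝ) • w k := by
    intro u hu
    obtain ⟨p, q, hupq⟩ := hrep u hu
    have hp : ∀ j, (p j : ℝ) = 0 := fun j => by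
      rw [← hTu u hu p q hupq j]
      exact hTV j u (hSV u hu)
    refine ⟨q, ?_⟩
    rw [hupq]
    simp [hp]
  have hκV : ∀ k, ∀ v ∈ V, κ k v = 0 := by
    intro k v hv
    apply int_form hd (κ k) _ hv
    intro u hu
    obtain ⟨q, hq⟩ := hq u hu
    exact ⟨q k, by rw [hq]; exact hκ q k⟩
  have hS0 : ∀ u ∈ S, u = 0 := by
    intro u hu
    obtain ⟨q, hq⟩ := hq u hu
    have h2 : ∀ k, (q k : ℝ) = 0 := by
      intro k
      rw [← hκ q k, ← hq]
      exact hκV k u (hSV u hu)
    rw [hq]
    simp [h2]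
  rw [Submodule.eq_bot_iff]
  intro v hv
  have h2 : closure S ⊆ {0} := closure_minimal (fun u hu => hS0 u hu) isClosed_singleton
  exact h2 (mem_closure_of_dense hd hv)

end

end Pool.Agent.W54.CL
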