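import Pool.Agent.W54.CL.Conc

set_option autoImplicit false
set_option linter.unusedSectionVars false

namespace Pool.Agent.W54.CL

open Topology Filter Module NumberField

/-- The image of a subgroup of `Kˣ` in the unit group of `K ⊗ ℝ = ℝ ^ r₁ × ℂ ^ r₂`. -/
noncomputable def img (K : Type) [Field K] [NumberField K] (L : Subgroup Kˣ) :
    Subgroup (mixedEmbedding.mixedSpace K)ˣ :=
  L.map (Units.map (mixedEmbedding K : K →* mixedEmbedding.mixedSpace K))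

section
variable {A B : Type} [Fintype A] [Fintype B] [DecidableEq B]
  {ψ : (A → ℝ) × (B → ℂ) → ((A → ℝ) × (B → ℂ))ˣ}

theorem psi_scalar (hv : ∀ x, ((ψ x : ((A → ℝ) × (B → ℂ))ˣ) : (A → ℝ) × (B → ℂ)) =
      (fun w => Real.exp (x.1 w), fun w => Complex.exp (x.2 w))) (s : ℝ) (hs : 0 < s) :
    ((ψ (Real.log s • ev A B) : ((A → ℝ) × (B → ℂ))ˣ) : (A → ℝ) × (B → ℂ)) = s • 1 := by
  rw [hv]
  refine Prod.ext (funext fun w => ?_) (funext fun w => ?_)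
  · show Real.exp (Real.log s * 1) = s * 1
    rw [mul_one, mul_one, Real.exp_log hs]
  · show Complex.exp (Real.log s • (1 : ℂ)) = s • (1 : ℂ)
    rw [Complex.real_smul, Complex.real_smul, mul_one, mul_one, ← Complex.ofReal_exp,
      Real.exp_log hs]

theorem rep {ψ : (A → ℝ) × (B → ℂ) → ((A → ℝ) × (B → ℂ))ˣ} (hch : Chart ψ)
    {K : Type} [Field K] (f : K →+* (A → ℝ) × (B → ℂ))
    (hv : ∀ x, ((ψ x : ((A → ℝ) × (B → ℂ))ˣ) : (A → ℝ) × (B → ℂ)) =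
      (fun w => Real.exp (x.1 w), fun w => Complex.exp (x.2 w)))
    {l : ℕ} (a : Fin l → ℕ) (ha : ∀ j, 1 ≤ a j) (α : Fin l → Kˣ)
    (g : Fin l → (A → ℝ) × (B → ℂ)) (ε : Fin l → ((A → ℝ) × (B → ℂ))ˣ) (hε : ∀ j, IsSign (ε j))
    (hg : ∀ j, Units.map (f : K →* (A → ℝ) × (B → ℂ)) (α j) = ψ (g j) * ε j)
    {y : Kˣ} (hy : y ∈ Subgroup.closure {y : Kˣ | ∃ j, (y : K) = a j * α j}) :
    ∃ (p : Fin l → ℤ) (δ : ((A → ℝ) × (B → ℂ))ˣ), IsSign δ ∧
      Units.map (f : K →* (A → ℝ) × (B → ℂ)) y =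
        ψ (∑ j, (p j : ℝ) • (g j + Real.log (a j) • ev A B)) * δ := by
  induction hy using Subgroup.closure_induction with
  | mem y hy =>
    obtain ⟨j, hj⟩ := hy
    refine ⟨Pi.single j 1, ε j, hε j, ?_⟩
    have h1 : ∑ k, (((Pi.single j 1 : Fin l → ℤ) k : ℤ) : ℝ) • (g k + Real.log (a k) • ev A B) =
        g j + Real.log (a j) • ev A B := by
      rw [Finset.sum_eq_single j]
      · simp
      · intro k _ hk
        simp [Pi.single_eq_of_ne hk]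
      · intro h
        exact absurd (Finset.mem_univ j) h
    rw [h1, hch.map_add]
    apply Units.ext
    have h2 : ((a j : ℕ) : ((A → ℝ) × (B → ℂ))) = ((a j : ℝ)) • 1 := by
      rw [Nat.cast_smul_eq_nsmul, nsmul_one]
    have h3 : f (α j : K) = ((ψ (g j) : ((A → ℝ) × (B → ℂ))ˣ) : (A → ℝ) × (B → ℂ)) *
        ((ε j : ((A → ℝ) × (B → ℂ))ˣ) : (A → ℝ) × (B → ℂ)) := by
      have := congrArg Units.val (hg j)
      rw [Units.val_mul] at this
      exact this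
    have h4 : (0 : ℝ) < a j := by exact_mod_cast ha j
    show f (y : K) = _
    rw [hj, map_mul, map_natCast, h3, Units.val_mul, Units.val_mul, psi_scalar hv _ h4, h2]
    ring
  | one =>
    refine ⟨0, 1, IsSign.one, ?_⟩
    rw [map_one]
    simp [hch.map_zero]
  | mul x y _ _ ihx ihy =>
    obtain ⟨p, δ, hδ, h1⟩ := ihx
    obtain ⟨p', δ', hδ', h1'⟩ := ihy
    refine ⟨p + p', δ * δ', hδ.mul hδ', ?_⟩
    have h2 : ∑ j, (((p + p') j : ℤ) : ℝ) • (g j + Real.log (a j) • ev A B) =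
        ∑ j, (p j : ℝ) • (g j + Real.log (a j) • ev A B) +
          ∑ j, (p' j : ℝ) • (g j + Real.log (a j) • ev A B) := by
      rw [← Finset.sum_add_distrib]
      refine Finset.sum_congr rfl fun j _ => ?_
      rw [Pi.add_apply, Int.cast_add, add_smul]
    rw [map_mul, h1, h1', h2, hch.map_add]
    exact mul_mul_mul_comm _ _ _ _
  | inv x _ ihx =>
    obtain ⟨p, δ, hδ, h1⟩ := ihx
    refine ⟨-p, δ⁻¹, hδ.inv, ?_⟩
    have h2 : ∑ j, (((-p) j : ℤ) : ℝ) • (g j + Real.log (a j) • ev A B) =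
        -∑ j, (p j : ℝ) • (g j + Real.log (a j) • ev A B) := by
      rw [← Finset.sum_neg_distrib]
      refine Finset.sum_congr rfl fun j _ => ?_
      rw [Pi.neg_apply, Int.cast_neg, neg_smul]
    rw [map_inv, h1, h2, hch.map_neg, mul_inv]

/-- The main argument for one tuple. -/
theorem alt (hC : StCore) (hM : StComp) [Nonempty (A ⊕ B)]
    {ψ : (A → ℝ) × (B → ℂ) → ((A → ℝ) × (B → ℂ))ˣ} (hch : Chart ψ)
    {K : Type} [Field K] (f : K →+* (A → ℝ) × (B → ℂ))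
    (hv : ∀ x, ((ψ x : ((A → ℝ) × (B → ℂ))ˣ) : (A → ℝ) × (B → ℂ)) =
      (fun w => Real.exp (x.1 w), fun w => Complex.exp (x.2 w)))
    (hker : ∀ x, IsSign (ψ x) → ∃ q : B → ℤ,
      x = ((0 : A → ℝ), fun w => (q w : ℂ) * (2 * Real.pi * Complex.I)))
    {l : ℕ} (a : Fin l → ℕ) (ha : ∀ j, 1 ≤ a j) (α : Fin l → Kˣ)
    (g : Fin l → (A → ℝ) × (B → ℂ)) (ε : Fin l → ((A → ℝ) × (B → ℂ))ˣ) (hε : ∀ j, IsSign (ε j))
    (hg : ∀ j, Units.map (f : K →* (A → ℝ) × (B → ℂ)) (α j) = ψ (g j) * ε j)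
    (hN : NoLin ((W1 g) ^ (2 * finrank ℝ ((A → ℝ) × (B → ℂ)) + 1)) (fun j => Real.log (a j)))
    (L : Subgroup Kˣ) (hL : L ≤ Subgroup.closure {y : Kˣ | ∃ j, (y : K) = a j * α j}) :
    maxSub (pre hch (L.map (Units.map (f : K →* (A → ℝ) × (B → ℂ))))) = ⊥ ∨
      ev A B ∈ maxSub (pre hch (L.map (Units.map (f : K →* (A → ℝ) × (B → ℂ))))) := by
  set L' := L.map (Units.map (f : K →* (A → ℝ) × (B → ℂ))) with hL'
  set V := maxSub (pre hch L') with hV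
  by_cases he : ev A B ∈ V
  · exact Or.inr he
  · left
    obtain ⟨_, h2, _⟩ := hM _ _ ψ hch L'
    refine conc hC g (fun j => Real.log (a j)) hN V {u | u ∈ V ∧ ψ u ∈ L'} (fun u hu => hu.1) ?_ ?_ he
    · rintro u ⟨_, hu⟩
      obtain ⟨y, hy, hyu⟩ := hu
      obtain ⟨p, δ, hδ, h3⟩ := rep hch f hv a ha α g ε hε hg (hL hy)
      have h4 : ψ (u - ∑ j, (p j : ℝ) • (g j + Real.log (a j) • ev A B)) = δ := by
        rw [sub_eq_add_neg, hch.map_add, hch.map_neg, ← hyu]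
        have h5 : (Units.map (f : K →* (A → ℝ) × (B → ℂ))) y =
          ψ (∑ j, (p j : ℝ) • (g j + Real.log (a j) • ev A B)) * δ := h3
        rw [h5, mul_inv_eq_iff_eq_mul, mul_comm]
      obtain ⟨q, hq⟩ := hker _ (by rw [h4]; exact hδ)
      refine ⟨p, q, ?_⟩
      rw [sum_wv, ← hq]
      abel
    · intro v hv' δ hδ
      obtain ⟨u, hu, h3, h4⟩ := h2 v hv' δ hδ
      exact ⟨u, ⟨hu, h3⟩, h4⟩

end

end Pool.Agent.W54.CL
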