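import Pool.Agent.W54.CL.Fin

set_option autoImplicit false
set_option linter.unusedSectionVars false

namespace Pool.Agent.W54.CL

open Topology Filter Module NumberField

section
variable {A B : Type} [Fintype A] [Fintype B] [DecidableEq B]

theorem ev_ne_zero [h : Nonempty (A ⊕ B)] : ev A B ≠ 0 := by
  intro h0
  have := Xl_ev (A := A) (B := B)
  rw [h0, map_zero] at this
  exact zero_ne_one this

theorem psi_range {ψ : (A → ℝ) × (B → ℂ) → ((A → ℝ) × (B → ℂ))ˣ}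
    (hv : ∀ x, ((ψ x : ((A → ℝ) × (B → ℂ))ˣ) : (A → ℝ) × (B → ℂ)) =
      (fun w => Real.exp (x.1 w), fun w => Complex.exp (x.2 w)))
    {u : ((A → ℝ) × (B → ℂ))ˣ} {s : ℝ} (hs : 0 < s) (hu : (u : (A → ℝ) × (B → ℂ)) = s • 1) :
    u = ψ (Real.log s • ev A B) := by
  apply Units.ext
  rw [hu, psi_scalar hv s hs]

theorem comp_top (hM : StComp) {ψ : (A → ℝ) × (B → ℂ) → ((A → ℝ) × (B → ℂ))ˣ} (hch : Chart ψ) :
    connectedComponent (1 : ((A → ℝ) × (B → ℂ))ˣ) = Set.range ψ := by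
  obtain ⟨h1, _, _⟩ := hM _ _ ψ hch ⊤
  have h2 : closure ((⊤ : Subgroup ((A → ℝ) × (B → ℂ))ˣ) : Set ((A → ℝ) × (B → ℂ))ˣ) = Set.univ := by
    rw [Subgroup.coe_top, closure_univ]
  have h3 : maxSub (pre hch ⊤) = ⊤ := by
    rw [Submodule.eq_top_iff']
    intro x t
    show ψ (t • x) ∈ (⊤ : Subgroup ((A → ℝ) × (B → ℂ))ˣ).topologicalClosure
    exact Subgroup.le_topologicalClosure _ (Subgroup.mem_top _)
  rw [h2, connectedComponentIn_univ, h3] at h1
  rw [h1]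
  exact Set.image_univ

/-- The conclusions for one group. -/
theorem good (hM : StComp) [Nonempty (A ⊕ B)]
    {ψ : (A → ℝ) × (B → ℂ) → ((A → ℝ) × (B → ℂ))ˣ} (hch : Chart ψ)
    (hv : ∀ x, ((ψ x : ((A → ℝ) × (B → ℂ))ˣ) : (A → ℝ) × (B → ℂ)) =
      (fun w => Real.exp (x.1 w), fun w => Complex.exp (x.2 w)))
    (L' : Subgroup ((A → ℝ) × (B → ℂ))ˣ)
    (h : maxSub (pre hch L') = ⊥ ∨ ev A B ∈ maxSub (pre hch L')) :
    ((∃ U ∈ 𝓝 (1 : ((A → ℝ) × (B → ℂ))ˣ), ∀ u ∈ closure (L' : Set ((A → ℝ) × (B → ℂ))ˣ),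
        u ∈ U → u = 1) ∨
      (∀ (s : ℝ) (u : ((A → ℝ) × (B → ℂ))ˣ), 0 < s → (u : (A → ℝ) × (B → ℂ)) = s • 1 →
        u ∈ closure (L' : Set ((A → ℝ) × (B → ℂ))ˣ))) ∧
    (finrank ℝ ((A → ℝ) × (B → ℂ)) = 2 →
      connectedComponentIn (closure (L' : Set ((A → ℝ) × (B → ℂ))ˣ)) 1 = {1} ∨
      connectedComponentIn (closure (L' : Set ((A → ℝ) × (B → ℂ))ˣ)) 1 =
        {u : ((A → ℝ) × (B → ℂ))ˣ | ∃ s : ℝ, 0 < s ∧ (u : (A → ℝ) × (B → ℂ)) = s • 1} ∨
      connectedComponentIn (closure (L' : Set ((A → ℝ) × (B → ℂ))ˣ)) 1 = connectedComponent 1) := by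
  obtain ⟨h1, _, h3⟩ := hM _ _ ψ hch L'
  rcases h with h | h
  · refine ⟨Or.inl (h3 h), fun _ => Or.inl ?_⟩
    rw [h1, h]
    simp [hch.map_zero]
  · refine ⟨Or.inr fun s u hs hu => ?_, fun h2 => Or.inr ?_⟩
    · have h4 : ψ ((Real.log s) • ev A B) ∈ L'.topologicalClosure := h (Real.log s)
      rw [psi_range hv hs hu]
      exact h4
    · by_cases htop : maxSub (pre hch L') = ⊤
      · right
        rw [h1, htop, comp_top hM hch]
        exact Set.image_univ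
      · left
        have h5 := Submodule.finrank_lt htop
        have h6 : Submodule.span ℝ {ev A B} = maxSub (pre hch L') := by
          apply Submodule.eq_of_le_of_finrank_le
          · rw [Submodule.span_singleton_le_iff_mem]
            exact h
          · rw [finrank_span_singleton ev_ne_zero]
            omega
        rw [h1, ← h6]
        ext u
        constructor
        · rintro ⟨x, hx, rfl⟩
          obtain ⟨c, rfl⟩ := Submodule.mem_span_singleton.1 hx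
          refine ⟨Real.exp c, Real.exp_pos c, ?_⟩
          rw [← psi_scalar hv (Real.exp c) (Real.exp_pos c), Real.log_exp]
        · rintro ⟨s, hs, hu⟩
          exact ⟨Real.log s • ev A B, Submodule.smul_mem _ _ (Submodule.mem_span_singleton_self _),
            (psi_range hv hs hu).symm⟩

theorem sat1 {ψ : (A → ℝ) × (B → ℂ) → ((A → ℝ) × (B → ℂ))ˣ} (hch : Chart ψ)
    {K : Type} [Field K] (f : K →+* (A → ℝ) × (B → ℂ))
    (hv : ∀ x, ((ψ x : ((A → ℝ) × (B → ℂ))ˣ) : (A → ℝ) × (B → ℂ)) =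
      (fun w => Real.exp (x.1 w), fun w => Complex.exp (x.2 w)))
    {l : ℕ} (a : Fin l → ℕ) (ha : ∀ j, 1 ≤ a j) (α : Fin l → Kˣ)
    {y : Kˣ} (hy : y ∈ Subgroup.closure {y : Kˣ | ∃ j, (y : K) = a j * α j}) :
    ∃ (c : ℝ) (z : Kˣ), z ∈ Subgroup.closure (Set.range α) ∧
      Units.map (f : K →* (A → ℝ) × (B → ℂ)) y =
        ψ (c • ev A B) * Units.map (f : K →* (A → ℝ) × (B → ℂ)) z := by
  induction hy using Subgroup.closure_induction with
  | mem y hy =>
    obtain ⟨j, hj⟩ := hy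
    refine ⟨Real.log (a j), α j, Subgroup.subset_closure ⟨j, rfl⟩, ?_⟩
    apply Units.ext
    have h4 : (0 : ℝ) < a j := by exact_mod_cast ha j
    have h2 : ((a j : ℕ) : ((A → ℝ) × (B → ℂ))) = ((a j : ℝ)) • 1 := by
      rw [Nat.cast_smul_eq_nsmul, nsmul_one]
    show f (y : K) = _
    rw [hj, map_mul, map_natCast, Units.val_mul, psi_scalar hv _ h4, h2]
    rfl
  | one =>
    refine ⟨0, 1, one_mem _, ?_⟩
    rw [map_one, zero_smul, hch.map_zero, one_mul]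
  | mul x y _ _ ihx ihy =>
    obtain ⟨c, z, hz, h1⟩ := ihx
    obtain ⟨c', z', hz', h1'⟩ := ihy
    refine ⟨c + c', z * z', mul_mem hz hz', ?_⟩
    rw [map_mul, h1, h1', add_smul, hch.map_add, map_mul]
    exact mul_mul_mul_comm _ _ _ _
  | inv x _ ihx =>
    obtain ⟨c, z, hz, h1⟩ := ihx
    refine ⟨-c, z⁻¹, inv_mem hz, ?_⟩
    rw [map_inv, h1, neg_smul, hch.map_neg, map_inv, mul_inv]

theorem sat2 {ψ : (A → ℝ) × (B → ℂ) → ((A → ℝ) × (B → ℂ))ˣ} (hch : Chart ψ)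
    {K : Type} [Field K] [CharZero K] (f : K →+* (A → ℝ) × (B → ℂ))
    (hv : ∀ x, ((ψ x : ((A → ℝ) × (B → ℂ))ˣ) : (A → ℝ) × (B → ℂ)) =
      (fun w => Real.exp (x.1 w), fun w => Complex.exp (x.2 w)))
    {l : ℕ} (a : Fin l → ℕ) (ha : ∀ j, 1 ≤ a j) (α : Fin l → Kˣ)
    {z : Kˣ} (hz : z ∈ Subgroup.closure (Set.range α)) :
    ∃ (c : ℝ) (y : Kˣ), y ∈ Subgroup.closure {y : Kˣ | ∃ j, (y : K) = a j * α j} ∧
      Units.map (f : K →* (A → ℝ) × (B → ℂ)) z =
        ψ (c • ev A B) * Units.map (f : K →* (A → ℝ) × (B → ℂ)) y := by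
  induction hz using Subgroup.closure_induction with
  | mem z hz =>
    obtain ⟨j, rfl⟩ := hz
    have h0 : (a j : K) * α j ≠ 0 :=
      mul_ne_zero (Nat.cast_ne_zero.2 (by have := ha j; omega)) (α j).ne_zero
    refine ⟨-Real.log (a j), Units.mk0 _ h0, Subgroup.subset_closure ⟨j, rfl⟩, ?_⟩
    rw [neg_smul, hch.map_neg, eq_inv_mul_iff_mul_eq]
    apply Units.ext
    have h4 : (0 : ℝ) < a j := by exact_mod_cast ha j
    have h2 : ((a j : ℕ) : ((A → ℝ) × (B → ℂ))) = ((a j : ℝ)) • 1 := by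
      rw [Nat.cast_smul_eq_nsmul, nsmul_one]
    show _ = f ((a j : K) * α j)
    rw [map_mul, map_natCast, Units.val_mul, psi_scalar hv _ h4, h2]
    rfl
  | one =>
    refine ⟨0, 1, one_mem _, ?_⟩
    rw [map_one, zero_smul, hch.map_zero, one_mul]
  | mul x y _ _ ihx ihy =>
    obtain ⟨c, z, hz, h1⟩ := ihx
    obtain ⟨c', z', hz', h1'⟩ := ihy
    refine ⟨c + c', z * z', mul_mem hz hz', ?_⟩
    rw [map_mul, h1, h1', add_smul, hch.map_add, map_mul]
    exact mul_mul_mul_comm _ _ _ _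
  | inv x _ ihx =>
    obtain ⟨c, z, hz, h1⟩ := ihx
    refine ⟨-c, z⁻¹, inv_mem hz, ?_⟩
    rw [map_inv, h1, neg_smul, hch.map_neg, map_inv, mul_inv]

/-- The closure in the second case. -/
theorem sat_eq {ψ : (A → ℝ) × (B → ℂ) → ((A → ℝ) × (B → ℂ))ˣ} (hch : Chart ψ)
    {K : Type} [Field K] [CharZero K] (f : K →+* (A → ℝ) × (B → ℂ))
    (hv : ∀ x, ((ψ x : ((A → ℝ) × (B → ℂ))ˣ) : (A → ℝ) × (B → ℂ)) =
      (fun w => Real.exp (x.1 w), fun w => Complex.exp (x.2 w)))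
    {l : ℕ} (a : Fin l → ℕ) (ha : ∀ j, 1 ≤ a j) (α : Fin l → Kˣ)
    (h : ∀ (s : ℝ) (u : ((A → ℝ) × (B → ℂ))ˣ), 0 < s → (u : (A → ℝ) × (B → ℂ)) = s • 1 →
        u ∈ closure (((Subgroup.closure {y : Kˣ | ∃ j, (y : K) = a j * α j}).map
          (Units.map (f : K →* (A → ℝ) × (B → ℂ))) : Subgroup _) : Set ((A → ℝ) × (B → ℂ))ˣ)) :
    closure (((Subgroup.closure {y : Kˣ | ∃ j, (y : K) = a j * α j}).map
          (Units.map (f : K →* (A → ℝ) × (B → ℂ))) : Subgroup _) : Set ((A → ℝ) × (B → ℂ))ˣ) =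
      closure {u : ((A → ℝ) × (B → ℂ))ˣ | ∃ s : ℝ, 0 < s ∧ ∃ z ∈ Subgroup.closure (Set.range α),
        (u : (A → ℝ) × (B → ℂ)) = s • f (z : Kˣ)} := by
  apply Set.Subset.antisymm
  · apply closure_mono
    rintro _ ⟨y, hy, rfl⟩
    obtain ⟨c, z, hz, h1⟩ := sat1 hch f hv a ha α hy
    refine ⟨Real.exp c, Real.exp_pos c, z, hz, ?_⟩
    rw [h1, Units.val_mul]
    have h2 := psi_scalar hv (Real.exp c) (Real.exp_pos c)
    rw [Real.log_exp] at h2
    rw [h2, smul_mul_assoc, one_mul]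
    rfl
  · apply closure_minimal _ isClosed_closure
    rintro u ⟨s, hs, z, hz, hu⟩
    obtain ⟨c, y, hy, h1⟩ := sat2 hch f hv a ha α hz
    have h2 : u = ψ (Real.log s • ev A B) * ψ (c • ev A B) *
        Units.map (f : K →* (A → ℝ) × (B → ℂ)) y := by
      rw [mul_assoc, ← h1]
      apply Units.ext
      rw [hu, Units.val_mul, psi_scalar hv s hs, smul_mul_assoc, one_mul]
      rfl
    have h3 : ∀ c : ℝ, ψ (c • ev A B) ∈
        closure (((Subgroup.closure {y : Kˣ | ∃ j, (y : K) = a j * α j}).map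
          (Units.map (f : K →* (A → ℝ) × (B → ℂ))) : Subgroup _) :
            Set ((A → ℝ) × (B → ℂ))ˣ) := by
      intro c
      have h4 := psi_scalar hv (Real.exp c) (Real.exp_pos c)
      rw [Real.log_exp] at h4
      exact h (Real.exp c) _ (Real.exp_pos c) h4
    rw [h2]
    exact Subgroup.mul_mem (Subgroup.topologicalClosure _)
      (Subgroup.mul_mem (Subgroup.topologicalClosure _) (h3 _) (h3 _))
      (Subgroup.le_topologicalClosure _ ⟨y, hy, rfl⟩)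

end

/-- The properties of the closure of (the image of) a subgroup of `Kˣ`. -/
def Good (K : Type) [Field K] [NumberField K] (L : Subgroup Kˣ) : Prop :=
  ((∃ U ∈ 𝓝 (1 : (mixedEmbedding.mixedSpace K)ˣ),
      ∀ u ∈ closure (img K L : Set (mixedEmbedding.mixedSpace K)ˣ), u ∈ U → u = 1) ∨
    (∀ (s : ℝ) (u : (mixedEmbedding.mixedSpace K)ˣ), 0 < s →
      (u : mixedEmbedding.mixedSpace K) = s • 1 →
      u ∈ closure (img K L : Set (mixedEmbedding.mixedSpace K)ˣ))) ∧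
  (finrank ℚ K = 2 →
    connectedComponentIn (closure (img K L : Set (mixedEmbedding.mixedSpace K)ˣ)) 1 = {1} ∨
    connectedComponentIn (closure (img K L : Set (mixedEmbedding.mixedSpace K)ˣ)) 1 =
      {u : (mixedEmbedding.mixedSpace K)ˣ | ∃ s : ℝ, 0 < s ∧
        (u : mixedEmbedding.mixedSpace K) = s • 1} ∨
    connectedComponentIn (closure (img K L : Set (mixedEmbedding.mixedSpace K)ˣ)) 1 =
      connectedComponent 1)

open Classical in
theorem final (hC : StCore) (hM : StComp) (hCh : StChart) (hG : StGen) (hP : StPow)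
    (n l : ℕ) (ε : ℝ) (hε : 0 < ε) : ∃ x₀ : ℕ, ∀ x ≥ x₀, ∀ (K : Type) [Field K] [NumberField K],
      finrank ℚ K = n → ∀ α : Fin l → Kˣ,
      (((Fintype.piFinset fun _ : Fin l => Finset.Icc 1 x).filter fun a =>
        ¬ ∀ L : Subgroup Kˣ, L ≤ Subgroup.closure {y : Kˣ | ∃ j, (y : K) = a j * α j} →
          Good K L).card : ℝ) ≤ ε * (x : ℝ) ^ l := by
  obtain ⟨x₀, hx₀⟩ := hG l ((l + (l * n + n * n) + 1) ^ (2 * n + 1)) ε hε
  refine ⟨x₀, fun x hx K _ _ hn α => ?_⟩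
  let A := {w : InfinitePlace K // w.IsReal}
  let B := {w : InfinitePlace K // w.IsComplex}
  have hAB : Fintype.card A + 2 * Fintype.card B = n := by
    rw [← hn, ← InfinitePlace.card_add_two_mul_card_eq_rank K]
  have : Nonempty (A ⊕ B) := by
    obtain ⟨w⟩ : Nonempty (InfinitePlace K) := inferInstance
    rcases w.isReal_or_isComplex with h | h
    · exact ⟨Sum.inl ⟨w, h⟩⟩
    · exact ⟨Sum.inr ⟨w, h⟩⟩
  have hfr : finrank ℝ ((A → ℝ) × (B → ℂ)) = n := by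
    rw [← hn]
    exact mixedEmbedding.finrank K
  obtain ⟨ψ, hch, hv, hlift, hker⟩ := hCh A B
  have h1 : ∀ j, ∃ (g : (A → ℝ) × (B → ℂ)) (ε : ((A → ℝ) × (B → ℂ))ˣ), IsSign ε ∧
      Units.map (mixedEmbedding K : K →* (A → ℝ) × (B → ℂ)) (α j) = ψ g * ε := by
    intro j
    obtain ⟨g, ε, h, h'⟩ := hlift (Units.map (mixedEmbedding K : K →* (A → ℝ) × (B → ℂ)) (α j))
    exact ⟨g, ε, h', h⟩
  choose g ε' hε' hg using h1
  obtain ⟨hf, hr⟩ := hP (W1 g) (l + (l * n + n * n) + 1) (2 * n + 1) (W1_finite g) (by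
    refine (W1_finrank g).trans ?_
    have h2 : Fintype.card A + (Fintype.card B + Fintype.card B) = n := by omega
    have h3 : Fintype.card B ≤ n := by omega
    rw [h2]
    gcongr)
  refine le_trans ?_ (hx₀ x hx (W1 g ^ (2 * n + 1)) hf hr)
  have h2 : ((Fintype.piFinset fun _ : Fin l => Finset.Icc 1 x).filter fun a =>
        ¬ ∀ L : Subgroup Kˣ, L ≤ Subgroup.closure {y : Kˣ | ∃ j, (y : K) = a j * α j} →
          Good K L).card ≤
      ((Fintype.piFinset fun _ : Fin l => Finset.Icc 1 x).filter fun a =>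
        ¬ NoLin (W1 g ^ (2 * n + 1)) (fun j => Real.log (a j))).card := by
    apply Finset.card_le_card
    intro a ha
    rw [Finset.mem_filter] at ha ⊢
    refine ⟨ha.1, fun hN => ha.2 fun L hL => ?_⟩
    have hpos : ∀ j, 1 ≤ a j := fun j => (Finset.mem_Icc.1 (Fintype.mem_piFinset.1 ha.1 j)).1
    have h3 := alt hC hM hch (mixedEmbedding K) hv hker a hpos α g ε' hε' hg
      (by rw [hfr]; exact hN) L hL
    have h4 := good hM hch hv _ h3
    refine ⟨h4.1, fun h5 => h4.2 ?_⟩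
    rw [hfr, ← hn]
    exact h5
  exact_mod_cast h2

end Pool.Agent.W54.CL
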