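import Pool.Agent.W54.CL.Fin2

set_option autoImplicit false
set_option linter.unusedSectionVars false

namespace Pool.Agent.W54.CL

open Topology Filter Module NumberField

/-- In a finite-dimensional space, a family which is independent over `ℤ` in a group in which `0`
is isolated has at most as many members as the dimension. -/
theorem card_le_of_isolated {E : Type} [NormedAddCommGroup E] [NormedSpace ℝ E]
    [FiniteDimensional ℝ E] {ι : Type} [Fintype ι] (b : ι → E) (hb : LinearIndependent ℤ b)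
    (H : AddSubgroup E) (hbH : ∀ i, b i ∈ H) (δ : ℝ) (hδ : 0 < δ) (h0 : ∀ h ∈ H, ‖h‖ < δ → h = 0) :
    Fintype.card ι ≤ finrank ℝ E := by
  have hsub : ∀ x ∈ Submodule.span ℤ (Set.range b), x ∈ H := by
    intro x hx
    have h1 : Submodule.span ℤ (Set.range b) ≤ AddSubgroup.toIntSubmodule H := by
      rw [Submodule.span_le]
      rintro _ ⟨i, rfl⟩
      exact hbH i
    exact h1 hx
  have hdisc : DiscreteTopology (Submodule.span ℤ (Set.range b)) := by
    apply discreteTopology_of_isOpen_singleton_zero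
    rw [Metric.isOpen_iff]
    intro x hx
    rw [Set.mem_singleton_iff] at hx
    subst hx
    refine ⟨δ, hδ, fun y hy => ?_⟩
    rw [Metric.mem_ball, dist_zero_right] at hy
    rw [Set.mem_singleton_iff]
    apply Subtype.ext
    exact h0 _ (hsub _ y.2) hy
  have h1 := Real.finrank_eq_int_finrank_of_discrete hdisc
  have h2 : Set.finrank ℤ (Set.range b) = Fintype.card ι := finrank_span_eq_card hb
  have h3 : Set.finrank ℝ (Set.range b) ≤ finrank ℝ E := Submodule.finrank_le _
  omega

section
variable {A B : Type} [Fintype A] [Fintype B] [DecidableEq B]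

theorem nondisc (hO : StOpen) [Nonempty (A ⊕ B)]
    {ψ : (A → ℝ) × (B → ℂ) → ((A → ℝ) × (B → ℂ))ˣ} (hch : Chart ψ)
    {K : Type} [Field K] [CharZero K] (f : K →+* (A → ℝ) × (B → ℂ))
    (hv : ∀ x, ((ψ x : ((A → ℝ) × (B → ℂ))ˣ) : (A → ℝ) × (B → ℂ)) =
      (fun w => Real.exp (x.1 w), fun w => Complex.exp (x.2 w)))
    {l : ℕ} (a : Fin l → ℕ) (ha : ∀ j, 1 ≤ a j) (α : Fin l → Kˣ)
    (g : Fin l → (A → ℝ) × (B → ℂ)) (ε : Fin l → ((A → ℝ) × (B → ℂ))ˣ) (hε : ∀ j, IsSign (ε j))
    (hg : ∀ j, Units.map (f : K →* (A → ℝ) × (B → ℂ)) (α j) = ψ (g j) * ε j)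
    (hN : NoLin ((W1 g) ^ (2 * finrank ℝ ((A → ℝ) × (B → ℂ)) + 1)) (fun j => Real.log (a j)))
    (hV : maxSub (pre hch ((Subgroup.closure {y : Kˣ | ∃ j, (y : K) = a j * α j}).map
      (Units.map (f : K →* (A → ℝ) × (B → ℂ))))) = ⊥) :
    l + Fintype.card B ≤ finrank ℝ ((A → ℝ) × (B → ℂ)) := by
  set L' := (Subgroup.closure {y : Kˣ | ∃ j, (y : K) = a j * α j}).map
      (Units.map (f : K →* (A → ℝ) × (B → ℂ))) with hL'
  have hcl : IsClosed ((pre hch L' : AddSubgroup ((A → ℝ) × (B → ℂ))) :
      Set ((A → ℝ) × (B → ℂ))) := by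
    have h1 : ((pre hch L' : AddSubgroup ((A → ℝ) × (B → ℂ))) : Set ((A → ℝ) × (B → ℂ))) =
      ψ ⁻¹' (closure (L' : Set ((A → ℝ) × (B → ℂ))ˣ)) := rfl
    rw [h1]
    exact isClosed_closure.preimage hch.cont
  obtain ⟨δ, hδ, h0⟩ := hO _ (pre hch L') hcl
  set v : Fin l → (A → ℝ) × (B → ℂ) := fun j => g j + Real.log (a j) • ev A B with hvdef
  have hX : ∀ j, Xl A B (v j) = Xl A B (g j) + Real.log (a j) := by
    intro j
    rw [hvdef]
    simp only [map_add, map_smul, Xl_ev, smul_eq_mul, mul_one]
  let b : Fin l ⊕ B → (A → ℝ) × (B → ℂ) := Sum.elim (fun j => (2 : ℤ) • v j) (fun k => wv A k)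
  have hb : LinearIndependent ℤ b := by
    rw [Fintype.linearIndependent_iff]
    intro c hc
    rw [Fintype.sum_sum_type] at hc
    simp only [b, Sum.elim_inl, Sum.elim_inr] at hc
    have hc' : ∑ j, ((c (Sum.inl j) : ℝ)) • ((2 : ℝ) • v j) +
        ∑ k, ((c (Sum.inr k) : ℝ)) • wv A k = 0 := by
      rw [← hc]
      congr 1
      · refine Finset.sum_congr rfl fun j _ => ?_
        rw [← Int.cast_smul_eq_zsmul ℝ (c (Sum.inl j)), ← Int.cast_smul_eq_zsmul ℝ (2 : ℤ)]
        norm_num
      · refine Finset.sum_congr rfl fun k _ => ?_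
        rw [← Int.cast_smul_eq_zsmul ℝ]
    have h1 := congrArg (Xl A B) hc'
    simp only [map_add, map_sum, map_smul, Xl_wv, smul_eq_mul, mul_zero, Finset.sum_const_zero,
      add_zero, map_zero, hX] at h1
    have hz := hN (fun j => ((c (Sum.inl j) : ℤ) : ℂ)) (fun j => by
        have hone : (1 : ℂ) ∈ (W1 g) ^ (2 * finrank ℝ ((A → ℝ) × (B → ℂ)) + 1) := by
          apply le_pow_of_one (W1_one g) (Nat.zero_le _)
          rw [pow_zero]
          exact Submodule.one_le.1 le_rfl
        have := zsmul_mem hone (c (Sum.inl j))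
        simpa [zsmul_eq_mul] using this) (by
        have h2 : ∑ j, ((c (Sum.inl j) : ℤ) : ℂ) * ((Real.log (a j) : ℝ) : ℂ) =
            -∑ j, (c (Sum.inl j) : ℤ) • ((Xl A B (g j) : ℝ) : ℂ) := by
          have h3 : ∑ j, (c (Sum.inl j) : ℝ) * (Xl A B (g j) + Real.log (a j)) = 0 := by
            have h4 : ∑ j, (c (Sum.inl j) : ℝ) * (2 * (Xl A B (g j) + Real.log (a j))) =
                2 * ∑ j, (c (Sum.inl j) : ℝ) * (Xl A B (g j) + Real.log (a j)) := by
              rw [Finset.mul_sum]
              exact Finset.sum_congr rfl fun j _ => by ring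
            rw [h4] at h1
            linarith
          have h5 := congrArg (fun r : ℝ => (r : ℂ)) h3
          push_cast at h5
          rw [eq_neg_iff_add_eq_zero, ← Finset.sum_add_distrib, ← h5]
          refine Finset.sum_congr rfl fun j _ => ?_
          rw [zsmul_eq_mul]
          push_cast
          ring
        rw [h2]
        refine neg_mem (sum_mem fun j _ => zsmul_mem ?_ _)
        refine le_pow_of_one (W1_one g) (show 1 ≤ 2 * finrank ℝ ((A → ℝ) × (B → ℂ)) + 1 by omega) ?_
        rw [pow_one]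
        exact Submodule.subset_span ⟨some (Sum.inl j), rfl⟩)
    have hz' : ∀ j, c (Sum.inl j) = 0 := fun j => by exact_mod_cast hz j
    have h6 : ∑ k, ((c (Sum.inr k) : ℝ)) • wv A k = 0 := by
      rw [← hc']
      simp [hz']
    have hz2 : ∀ k, c (Sum.inr k) = 0 := by
      intro k
      have h7 := kapl_wv (A := A) (fun k => c (Sum.inr k)) k
      rw [h6, map_zero] at h7
      exact_mod_cast h7.symm
    rintro (j | k)
    · exact hz' j
    · exact hz2 k
  have hmem : ∀ i, b i ∈ pre hch L' := by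
    rintro (j | k)
    · show ψ ((2 : ℤ) • v j) ∈ L'.topologicalClosure
      apply Subgroup.le_topologicalClosure
      have h0' : (a j : K) * α j ≠ 0 :=
        mul_ne_zero (Nat.cast_ne_zero.2 (by have := ha j; omega)) (α j).ne_zero
      have hy : Units.mk0 _ h0' ∈ Subgroup.closure {y : Kˣ | ∃ j, (y : K) = a j * α j} :=
        Subgroup.subset_closure ⟨j, rfl⟩
      have h4 : (0 : ℝ) < a j := by exact_mod_cast ha j
      have h2 : ((a j : ℕ) : ((A → ℝ) × (B → ℂ))) = ((a j : ℝ)) • 1 := by
        rw [Nat.cast_smul_eq_nsmul, nsmul_one]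
      have h5 : Units.map (f : K →* (A → ℝ) × (B → ℂ)) (Units.mk0 _ h0') = ψ (v j) * ε j := by
        rw [hvdef]
        simp only
        rw [hch.map_add]
        apply Units.ext
        have h3 : f (α j : K) = ((ψ (g j) : ((A → ℝ) × (B → ℂ))ˣ) : (A → ℝ) × (B → ℂ)) *
            ((ε j : ((A → ℝ) × (B → ℂ))ˣ) : (A → ℝ) × (B → ℂ)) := by
          have := congrArg Units.val (hg j)
          rw [Units.val_mul] at this
          exact this
        show f ((a j : K) * α j) = _
        rw [map_mul, map_natCast, h3, Units.val_mul, Units.val_mul, psi_scalar hv _ h4, h2]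
        ring
      have h6 : ε j * ε j = 1 := by
        apply Units.ext
        rw [Units.val_mul, Units.val_one]
        refine Prod.ext (funext fun w => ?_) (funext fun w => ?_)
        · rw [Prod.fst_mul, Pi.mul_apply]
          rcases (hε j).1 w with h | h <;> rw [h] <;> simp
        · rw [Prod.snd_mul, Pi.mul_apply, (hε j).2 w, mul_one]
          rfl
      have h7 : ψ ((2 : ℤ) • v j) = Units.map (f : K →* (A → ℝ) × (B → ℂ)) (Units.mk0 _ h0') *
          Units.map (f : K →* (A → ℝ) × (B → ℂ)) (Units.mk0 _ h0') := by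
        rw [two_zsmul, hch.map_add, h5, mul_mul_mul_comm, h6, mul_one]
      rw [h7]
      exact L'.mul_mem ⟨_, hy, rfl⟩ ⟨_, hy, rfl⟩
    · show ψ (wv A k) ∈ L'.topologicalClosure
      have h1 : ψ (wv A k) = 1 := by
        apply Units.ext
        rw [hv, Units.val_one]
        refine Prod.ext (funext fun w => ?_) (funext fun w => ?_)
        · show Real.exp 0 = 1
          exact Real.exp_zero
        · show Complex.exp ((Pi.single k (2 * Real.pi * Complex.I) : B → ℂ) w) = 1
          by_cases hw : w = k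
          · subst hw
            rw [Pi.single_eq_same]
            exact Complex.exp_two_pi_mul_I
          · rw [Pi.single_eq_of_ne hw, Complex.exp_zero]
      rw [h1]
      exact one_mem _
  have hcard := card_le_of_isolated b hb (pre hch L') hmem δ hδ (fun h hh hlt => by
    have := h0 h hh hlt
    rw [hV] at this
    exact (Submodule.mem_bot ℝ).1 this)
  rw [Fintype.card_sum, Fintype.card_fin] at hcard
  exact hcard

end

end Pool.Agent.W54.CL
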